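import Pool.Agent.H66.PB7

/-!
# Positive coefficients: the pairs `(k, l)` for which boundedness is automatic

For `x_{n+1} = 1/(B_n x_n + x_{n-l})` with positive coefficients of least period `k`:
all positive solutions are bounded for every choice of the coefficients if and only if
`gcd(k, l+2) = 1`, and there is an explicit criterion if `gcd(k, l+2)` divides `3`.
Index convention: `x n` stands for `x_{n-l}`.
-/

namespace Pool.Agent.Results.MP_975ca8_an.CoprimeCase

/-- `B` is periodic with least period `k`. -/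
def LeastPeriod (B : ℕ → ℝ) (k : ℕ) : Prop :=
  (∀ n, B (n + k) = B n) ∧ ∀ p, 1 ≤ p → p < k → ∃ n, B (n + p) ≠ B n

/-- `x` is a positive solution (`x n` stands for `x_{n-l}`). -/
def PositiveSolution (B : ℕ → ℝ) (l : ℕ) (x : ℕ → ℝ) : Prop :=
  (∀ i ≤ l, 0 < x i) ∧ ∀ n, x (n + l + 1) = 1 / (B n * x (n + l) + x n)

/-- `x` is bounded above. -/
def Bounded (x : ℕ → ℝ) : Prop := ∃ M, ∀ n, x n ≤ M

open Pool.Agent.H66.PB

lemma no_bounded {k : ℕ} (hk : 0 < k) {B : ℕ → ℝ} (hB : ∀ n, 0 ≤ B n)
    (hper : ∀ n, B (n + k) = B n) {l i : ℕ}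
    (hi : 1 ≤ ∏ j ∈ Finset.range k,
      (B (i + (l + 2) * j) / (1 + B (i + (l + 2) * j) * B (i + (l + 2) * j + l + 1))))
    {x : ℕ → ℝ} (hx : PositiveSolution B l x) : ¬ Bounded x := by
  intro hb
  obtain ⟨p, hp⟩ := per_of_bdd hk hB hper (l := l) (x := x) hx hb
  have h : ∏ j ∈ Finset.range k,
      (B (i + (l + 2) * j) / (1 + B (i + (l + 2) * j) * B (i + (l + 2) * j + l + 1))) < 1 :=
    prod_lt_of_per hk hB hp i
  linarith

/-- **Theorem.**  Let `k ≥ 2` and `l ≥ 1`.

1. All positive solutions are bounded for every positive coefficient sequence of least period `k`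
   if and only if `k` and `l + 2` are coprime.
2. For nonnegative coefficients of least period `k`: if for some `i` the product of
   `B_n / (1 + B_n B_{n+l+1})` over `n = i, i + (l+2), ..., i + (k-1)(l+2)` is at least one, then
   no positive solution is bounded.
3. If the coefficients are positive and `gcd(k, l+2)` divides `3`, then all positive solutions are
   bounded if and only if all these products are less than one. -/
theorem result {k l : ℕ} (hk : 2 ≤ k) (_hl : 1 ≤ l) :
    (Nat.Coprime k (l + 2) ↔ ∀ B : ℕ → ℝ, (∀ n, 0 < B n) → LeastPeriod B k →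
      ∀ x, PositiveSolution B l x → Bounded x) ∧
    (∀ B : ℕ → ℝ, (∀ n, 0 ≤ B n) → LeastPeriod B k →
      (∃ i, 1 ≤ ∏ j ∈ Finset.range k,
        (B (i + (l + 2) * j) / (1 + B (i + (l + 2) * j) * B (i + (l + 2) * j + l + 1)))) →
      ∀ x, PositiveSolution B l x → ¬ Bounded x) ∧
    (Nat.gcd k (l + 2) ∣ 3 → ∀ B : ℕ → ℝ, (∀ n, 0 < B n) → LeastPeriod B k →
      ((∀ x, PositiveSolution B l x → Bounded x) ↔ ∀ i, ∏ j ∈ Finset.range k,
        (B (i + (l + 2) * j) / (1 + B (i + (l + 2) * j) * B (i + (l + 2) * j + l + 1))) < 1)) := by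
  have hk0 : 0 < k := by omega
  refine ⟨⟨?_, ?_⟩, ?_, ?_⟩
  · intro hc B hB hlp x hx
    obtain ⟨p, hp⟩ := per_of_coprime (show 1 < k by omega) hB hlp.1 hc.symm
    exact bdd_of_per hk0 (fun n => (hB n).le) hp hx
  · intro h
    by_contra hc
    set g := Nat.gcd k (l + 2) with hg
    have hg0 : 0 < g := Nat.gcd_pos_of_pos_left _ hk0
    have hg1 : g ≠ 1 := hc
    have hgk : g ∣ k := Nat.gcd_dvd_left _ _
    have hgl : g ∣ l + 2 := Nat.gcd_dvd_right _ _
    set B : ℕ → ℝ := fun n => if k ∣ n then 5 else if g ∣ n then 4 else 1 / 4 with hBdef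
    have hBpos : ∀ n, 0 < B n := by
      intro n
      rw [hBdef]
      simp only
      split_ifs <;> norm_num
    have hper : ∀ n, B (n + k) = B n := by
      intro n
      rw [hBdef]
      simp only [Nat.dvd_add_self_right, (Nat.dvd_add_left hgk)]
    have hlp : LeastPeriod B k := by
      refine ⟨hper, fun p hp1 hp2 => ⟨0, ?_⟩⟩
      have h1 : ¬ k ∣ p := Nat.not_dvd_of_pos_of_lt hp1 hp2
      rw [hBdef]
      simp only [zero_add, h1, if_false, dvd_zero, if_true]
      split_ifs <;> norm_num
    have hx := mk_sol B l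
    refine no_bounded hk0 (fun n => (hBpos n).le) hper (l := l) (i := 0) ?_ hx
      (h B hBpos hlp _ hx)
    have hfac : ∀ j, (1:ℝ) ≤ B (0 + (l + 2) * j) /
        (1 + B (0 + (l + 2) * j) * B (0 + (l + 2) * j + l + 1)) := by
      intro j
      have d1 : g ∣ 0 + (l + 2) * j := by
        rw [zero_add]
        exact hgl.mul_right j
      have d2 : ¬ g ∣ 0 + (l + 2) * j + l + 1 := by
        intro hd
        have h3 : g ∣ (0 + (l + 2) * j + l + 1) + 1 := by
          have : 0 + (l + 2) * j + l + 1 + 1 = (0 + (l + 2) * j) + (l + 2) := by ring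
          rw [this]
          exact dvd_add d1 hgl
        have h4 : g ∣ 1 := (Nat.dvd_add_right hd).mp h3
        exact hg1 (Nat.dvd_one.mp h4)
      have d3 : ¬ k ∣ 0 + (l + 2) * j + l + 1 := fun hd => d2 (hgk.trans hd)
      have e2 : B (0 + (l + 2) * j + l + 1) = 1 / 4 := by
        rw [hBdef]
        simp only [d3, d2, if_false]
      have e1 : B (0 + (l + 2) * j) = 5 ∨ B (0 + (l + 2) * j) = 4 := by
        rw [hBdef]
        simp only [d1, if_true]
        split_ifs
        · left; rfl
        · right; rfl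
      rw [e2]
      rcases e1 with e | e
      · rw [e]; norm_num
      · rw [e]; norm_num
    calc (1:ℝ) = ∏ _j ∈ Finset.range k, (1:ℝ) := by simp
      _ ≤ _ := Finset.prod_le_prod (fun _ _ => zero_le_one) (fun j _ => hfac j)
  · rintro B hB hlp ⟨i, hi⟩ x hx
    exact no_bounded hk0 hB hlp.1 hi hx
  · intro hg B hB hlp
    constructor
    · intro h i
      by_contra hi
      have hx := mk_sol B l
      exact no_bounded hk0 (fun n => (hB n).le) hlp.1 (not_lt.mp hi) hx (h _ hx)
    · intro h x hx
      rcases (Nat.dvd_prime Nat.prime_three).mp hg with h1 | h3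
      · obtain ⟨p, hp⟩ := per_of_coprime (show 1 < k by omega) hB hlp.1
          (show Nat.Coprime k (l + 2) from h1).symm
        exact bdd_of_per hk0 (fun n => (hB n).le) hp hx
      · obtain ⟨p, hp⟩ := per_of_gcd_three hk0 hB hlp.1 (l := l)
          (by rw [Nat.gcd_comm]; exact h3) (fun i => h i)
        exact bdd_of_per hk0 (fun n => (hB n).le) hp hx

end Pool.Agent.Results.MP_975ca8_an.CoprimeCase
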