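import Pool.Agent.H66.PB3
import Pool.Agent.Results.MP_2c9a54_an.BoundednessCriterion

/-!
# Boundedness for `x_{n+1} = 1/(B_n x_n + x_{n-l})` with periodic coefficient

* All positive solutions are bounded iff one is, iff there is a positive `k`-periodic solution.
  In particular the answer depends on `l` only modulo `k`.
* The explicit answer for `l = 0, 1, -1, -2` modulo `k`; this covers all `l` for `k = 2, 3, 4`.

Index convention: `x n` stands for `x_{n-l}`.
-/

namespace Pool.Agent.Results.MP_975ca8_an.ResidueClasses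

/-- `B` is periodic with least period `k`. -/
def LeastPeriod (B : ℕ → ℝ) (k : ℕ) : Prop :=
  (∀ n, B (n + k) = B n) ∧ ∀ p, 1 ≤ p → p < k → ∃ n, B (n + p) ≠ B n

/-- `x` is a positive solution (`x n` stands for `x_{n-l}`). -/
def PositiveSolution (B : ℕ → ℝ) (l : ℕ) (x : ℕ → ℝ) : Prop :=
  (∀ i ≤ l, 0 < x i) ∧ ∀ n, x (n + l + 1) = 1 / (B n * x (n + l) + x n)

/-- `x` is bounded above. -/
def Bounded (x : ℕ → ℝ) : Prop := ∃ M, ∀ n, x n ≤ M

/-- every positive solution is bounded -/
def AllBounded (B : ℕ → ℝ) (l : ℕ) : Prop := ∀ x, PositiveSolution B l x → Bounded x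

/-- `p` is a positive `k`-periodic solution -/
def PeriodicSolution (k : ℕ) (B : ℕ → ℝ) (l : ℕ) (p : ℕ → ℝ) : Prop :=
  PositiveSolution B l p ∧ ∀ n, p (n + k) = p n

/-- `1 - B_m + B_m B_{m-1} - ...`, `s` terms -/
def altSum (B : ℕ → ℝ) (s m : ℕ) : ℝ :=
  ∑ j ∈ Finset.range s, (-1 : ℝ) ^ j * ∏ i ∈ Finset.range j, B (m - i)

open Pool.Agent.H66.PB

lemma per_iff {B : ℕ → ℝ} (hB : ∀ n, 0 ≤ B n) (k l : ℕ) (p : ℕ → ℝ) :
    PeriodicSolution k B l p ↔ PerSol k B l p := by
  constructor
  · rintro ⟨h1, h2⟩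
    have hp : ∀ n, 0 < p n := Sol.pos hB h1
    refine ⟨hp, h2, fun n => ?_⟩
    have e : p (n + l + 1) = 1 / (B n * p (n + l) + p n) := h1.2 n
    have hD : 0 < B n * p (n + l) + p n := by
      have := hB n; have := hp n; have := hp (n + l); positivity
    rw [e, one_div, inv_mul_cancel₀ hD.ne']
  · rintro ⟨h0, h1, h2⟩
    refine ⟨⟨fun i _ => h0 i, fun n => ?_⟩, h1⟩
    have hD : 0 < B n * p (n + l) + p n := by
      have := hB n; have := h0 n; have := h0 (n + l); positivity
    rw [eq_div_iff hD.ne']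
    exact h2 n

lemma all_iff (B : ℕ → ℝ) (l : ℕ) : AllBounded B l ↔ AllBdd B l := Iff.rfl

lemma ex_iff {B : ℕ → ℝ} (hB : ∀ n, 0 ≤ B n) (k l : ℕ) :
    (∃ p, PeriodicSolution k B l p) ↔ ∃ p, PerSol k B l p :=
  ⟨fun ⟨p, hp⟩ => ⟨p, (per_iff hB k l p).mp hp⟩, fun ⟨p, hp⟩ => ⟨p, (per_iff hB k l p).mpr hp⟩⟩

lemma one_iff (B x : ℕ → ℝ) : PositiveSolution B 1 x ↔
    MP_2c9a54_an.BoundednessCriterion.PositiveSolution B x := by
  constructor
  · rintro ⟨h1, h2⟩
    exact ⟨h1 0 (by norm_num), h1 1 (by norm_num), h2⟩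
  · rintro ⟨h0, h1, h2⟩
    refine ⟨fun i hi => ?_, h2⟩
    interval_cases i
    · exact h0
    · exact h1

/-- **Theorem.**  Let `k ≥ 2`, `l ≥ 1`, `B_n ≥ 0` with least period `k`.

1. All positive solutions are bounded iff there is a positive `k`-periodic solution, iff some
   positive solution is bounded; the answer depends only on `l` modulo `k`.
2. `k ∣ l`: bounded iff `k` is odd or the products of `1 + B_n` over even and odd `n < k` agree.
3. `k ∣ l + 1`: always bounded.
4. `k ∣ l + 2`: bounded iff the linear system `q_{n+1} + B_{n+2} q_n = 1` has a positive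
   `k`-periodic solution, whose products over even and odd indices agree if `k` is even; for odd
   `k` this says that `k` explicit alternating sums are positive.
5. `k ∣ l - 1`: bounded iff the finite criterion for the second-order recurrence holds.
6. `k = 2`: bounded iff `l` is odd.
7. `k = 3`: bounded iff `l ≠ 1` modulo `3` or `B_i < 1 + B_i B_{i+2}` for `i = 0, 1, 2`. -/
theorem result {k : ℕ} (hk : 2 ≤ k) {B : ℕ → ℝ} (hB : ∀ n, 0 ≤ B n) (hlp : LeastPeriod B k)
    {l : ℕ} (_hl : 1 ≤ l) :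
    (AllBounded B l ↔ ∃ p, PeriodicSolution k B l p) ∧
    ((∃ x, PositiveSolution B l x ∧ Bounded x) → AllBounded B l) ∧
    (∀ l', 1 ≤ l' → l' ≡ l [MOD k] → (AllBounded B l' ↔ AllBounded B l)) ∧
    (k ∣ l → (AllBounded B l ↔ (Odd k ∨ ∏ i ∈ Finset.range (k / 2), (1 + B (2 * i))
      = ∏ i ∈ Finset.range (k / 2), (1 + B (2 * i + 1))))) ∧
    (k ∣ l + 1 → AllBounded B l) ∧
    (k ∣ l + 2 → (AllBounded B l ↔ ∃ q : ℕ → ℝ, (∀ n, 0 < q n) ∧ (∀ n, q (n + k) = q n) ∧
      (∀ n, q (n + 1) + B (n + 2) * q n = 1) ∧ (Odd k ∨ ∏ i ∈ Finset.range (k / 2), q (2 * i)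
      = ∏ i ∈ Finset.range (k / 2), q (2 * i + 1)))) ∧
    (k ∣ l + 2 → Odd k → (AllBounded B l ↔ ∀ n < k, 0 < altSum B k (n + k + 1))) ∧
    (l ≡ 1 [MOD k] → (AllBounded B l ↔ MP_2c9a54_an.BoundednessCriterion.Criterion k B)) ∧
    (k = 2 → (AllBounded B l ↔ Odd l)) ∧
    (k = 3 → (AllBounded B l ↔ (l % 3 = 1 → ∀ i < 3, B i < 1 + B i * B (i + 2)))) := by
  have hk0 : 0 < k := by omega
  have hper := hlp.1
  have h2 : k ∣ l → (AllBounded B l ↔ (Odd k ∨ ∏ i ∈ Finset.range (k / 2), (1 + B (2 * i))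
      = ∏ i ∈ Finset.range (k / 2), (1 + B (2 * i + 1)))) := fun h => by
    rw [all_iff, allBdd_iff hk0 hB hper, per_zero hk0 hB hper h]
  have h3 : k ∣ l + 1 → AllBounded B l := fun h => by
    rw [all_iff, allBdd_iff hk0 hB hper]
    exact per_neg_one hk0 hB hper h
  have h4 : k ∣ l + 2 → (AllBounded B l ↔ ∃ q : ℕ → ℝ, (∀ n, 0 < q n) ∧ (∀ n, q (n + k) = q n) ∧
      (∀ n, q (n + 1) + B (n + 2) * q n = 1) ∧ (Odd k ∨ ∏ i ∈ Finset.range (k / 2), q (2 * i)
      = ∏ i ∈ Finset.range (k / 2), q (2 * i + 1))) := fun h => by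
    rw [all_iff, allBdd_iff hk0 hB hper, per_neg_two hk0 hper h]
  have h5 : k ∣ l + 2 → Odd k → (AllBounded B l ↔ ∀ n < k, 0 < altSum B k (n + k + 1)) :=
    fun h ho => by
    have e : ∀ n, altSum B k (n + k + 1) = W B k (n + k) := fun n => rfl
    simp only [e]
    rw [← lin_odd hk0 ho hB hper, h4 h]
    constructor
    · rintro ⟨q, a, b, c, _⟩
      exact ⟨q, a, b, c⟩
    · rintro ⟨q, a, b, c⟩
      exact ⟨q, a, b, c, Or.inl ho⟩
  refine ⟨?_, ?_, ?_, h2, h3, h4, h5, ?_, ?_, ?_⟩
  · rw [all_iff, allBdd_iff hk0 hB hper, ex_iff hB]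
  · intro h
    rw [all_iff, allBdd_iff hk0 hB hper, ← exBdd_iff hk0 hB hper]
    exact h
  · intro l' _ h
    exact allBdd_congr hk0 hB hper h
  · intro h
    have e1 : AllBounded B l ↔ AllBounded B 1 := allBdd_congr hk0 hB hper h
    have e2 := (MP_2c9a54_an.BoundednessCriterion.result hk hB (hlp)).1
    rw [e1, ← e2]
    constructor
    · intro h x hx
      exact h x ((one_iff B x).mpr hx)
    · intro h x hx
      exact h x ((one_iff B x).mp hx)
  · intro hk2
    subst hk2
    constructor
    · intro h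
      by_contra hne
      have he : 2 ∣ l := (Nat.not_odd_iff_even.mp hne).two_dvd
      rcases (h2 he).mp h with ho | hp
      · exact absurd ho (by decide)
      · simp at hp
        obtain ⟨n, hn⟩ := hlp.2 1 le_rfl (by norm_num)
        apply hn
        have a1 := per_mod hper n
        have a2 := per_mod hper (n + 1)
        rw [← a1, ← a2]
        rcases Nat.mod_two_eq_zero_or_one n with h0 | h0
        · rw [h0, show (n + 1) % 2 = 1 by omega]; exact hp.symm
        · rw [h0, show (n + 1) % 2 = 0 by omega]; exact hp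
    · intro ho
      apply h3
      obtain ⟨m, hm⟩ := ho
      exact ⟨m + 1, by omega⟩
  · intro hk3
    subst hk3
    have b3 : B 3 = B 0 := hper 0
    have b4 : B 4 = B 1 := hper 1
    have b5 : B 5 = B 2 := hper 2
    have b6 : B 6 = B 0 := by rw [show (6:ℕ) = 3 + 3 by norm_num, hper]; exact b3
    constructor
    · intro h hl1
      have h' := (h5 (by omega) (by decide)).mp h
      have w0 := h' 0 (by norm_num)
      have w1 := h' 1 (by norm_num)
      have w2 := h' 2 (by norm_num)
      simp [altSum, Finset.sum_range_succ, Finset.prod_range_succ] at w0 w1 w2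
      rw [b4, b3] at w0
      rw [b5, b4] at w1
      rw [b6, b5] at w2
      intro i hi
      interval_cases i
      · norm_num
        linarith
      · norm_num
        rw [b3]
        linarith
      · norm_num
        rw [b4]
        linarith
    · intro h
      have hcases : l % 3 = 0 ∨ l % 3 = 1 ∨ l % 3 = 2 := by omega
      rcases hcases with h0 | h0 | h0
      · rw [h2 (by omega)]
        exact Or.inl (by decide)
      · have hh := h h0
        have i0 := hh 0 (by norm_num)
        have i1 := hh 1 (by norm_num)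
        have i2 := hh 2 (by norm_num)
        rw [h5 (by omega) (by decide)]
        intro n hn
        norm_num at i0 i1 i2
        rw [b3] at i1
        rw [b4] at i2
        interval_cases n
        · simp [altSum, Finset.sum_range_succ, Finset.prod_range_succ]
          rw [b4, b3]
          linarith
        · simp [altSum, Finset.sum_range_succ, Finset.prod_range_succ]
          rw [b5, b4]
          linarith
        · simp [altSum, Finset.sum_range_succ, Finset.prod_range_succ]
          rw [b6, b5]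
          linarith
      · exact h3 (by omega)

end Pool.Agent.Results.MP_975ca8_an.ResidueClasses
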